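import Mathlib

set_option autoImplicit false

namespace Pool.Agent.Results.MP_c74d57_an.IrrationalOptimum

open Finset

/-! ### Definitions used in the statement -/

/-- A causal real matrix sequence `X` lies in `ell_1` if each entry is absolutely summable. -/
def IsL1 {p q : ℕ} (X : ℕ → Matrix (Fin p) (Fin q) ℝ) : Prop :=
  ∀ i j, Summable fun k => |X k i j|

/-- Convolution product `(XY)(k) = ∑_{t=0}^k X(t) Y(k-t)` of causal matrix sequences. -/
def conv {p q r : ℕ} (X : ℕ → Matrix (Fin p) (Fin q) ℝ) (Y : ℕ → Matrix (Fin q) (Fin r) ℝ) :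
    ℕ → Matrix (Fin p) (Fin r) ℝ :=
  fun k => ∑ t ∈ range (k + 1), X t * Y (k - t)

/-- The `ell_infty`-induced norm `max_i ∑_j ∑_k |X_ij(k)|`. -/
noncomputable def norm1 {p q : ℕ} (X : ℕ → Matrix (Fin p) (Fin q) ℝ) : ℝ :=
  ⨆ i, ∑ j, ∑' k, |X k i j|

/-- The matrix `R` of rational functions is the `lambda`-transform of `X`: entrywise, the power
series `∑_k X_ij(k) lambda^k` times the denominator of `R_ij` equals the numerator of `R_ij`. -/
def HasTransform {p q : ℕ} (X : ℕ → Matrix (Fin p) (Fin q) ℝ)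
    (R : Matrix (Fin p) (Fin q) (RatFunc ℝ)) : Prop :=
  ∀ i j, ((R i j).denom : PowerSeries ℝ) * PowerSeries.mk (fun k => X k i j) =
    ((R i j).num : PowerSeries ℝ)

/-- `X` is rational if its transform is a matrix of rational functions. -/
def IsRational {p q : ℕ} (X : ℕ → Matrix (Fin p) (Fin q) ℝ) : Prop :=
  ∃ R : Matrix (Fin p) (Fin q) (RatFunc ℝ), HasTransform X R

/-- `Q` is an optimal solution of `inf_Q ‖H - U Q V‖_1` over `Q` in `ell_1`. -/
def IsOptimal {nz nw nu ny : ℕ} (H : ℕ → Matrix (Fin nz) (Fin nw) ℝ)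
    (U : ℕ → Matrix (Fin nz) (Fin nu) ℝ) (V : ℕ → Matrix (Fin ny) (Fin nw) ℝ)
    (Q : ℕ → Matrix (Fin nu) (Fin ny) ℝ) : Prop :=
  IsL1 Q ∧ ∀ Q' : ℕ → Matrix (Fin nu) (Fin ny) ℝ, IsL1 Q' →
    norm1 (H - conv (conv U Q) V) ≤ norm1 (H - conv (conv U Q') V)

/-! ### The integer sequences `Re (3+4i)^n`, `Im (3+4i)^n` -/

/-- Real and imaginary parts of `(3+4i)^n`. -/
def ab : ℕ → ℤ × ℤ
  | 0 => (1, 0)
  | n + 1 => (3 * (ab n).1 - 4 * (ab n).2, 4 * (ab n).1 + 3 * (ab n).2)

/-- `Re (3+4i)^n`. -/
def a (n : ℕ) : ℤ := (ab n).1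
/-- `Im (3+4i)^n`. -/
def b (n : ℕ) : ℤ := (ab n).2

lemma a_zero : a 0 = 1 := rfl
lemma b_zero : b 0 = 0 := rfl
lemma a_succ (n : ℕ) : a (n + 1) = 3 * a n - 4 * b n := rfl
lemma b_succ (n : ℕ) : b (n + 1) = 4 * a n + 3 * b n := rfl

lemma ab_add (m n : ℕ) : a (m + n) = a m * a n - b m * b n ∧ b (m + n) = a m * b n + b m * a n := by
  induction n with
  | zero => simp [a_zero, b_zero]
  | succ n ih =>
    obtain ⟨h1, h2⟩ := ih
    constructor
    · rw [← add_assoc, a_succ (m + n), h1, h2, a_succ n, b_succ n]; ring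
    · rw [← add_assoc, b_succ (m + n), h1, h2, a_succ n, b_succ n]; ring

lemma sq_add (n : ℕ) : a n ^ 2 + b n ^ 2 = 25 ^ n := by
  induction n with
  | zero => simp [a_zero, b_zero]
  | succ n ih => rw [a_succ, b_succ, pow_succ (25 : ℤ), ← ih]; ring

lemma mod5 (n : ℕ) : a (n + 1) % 5 = 3 ∧ b (n + 1) % 5 = 4 := by
  induction n with
  | zero => simp [a_succ, b_succ, a_zero, b_zero]
  | succ n ih =>
    obtain ⟨h1, h2⟩ := ih
    rw [a_succ (n + 1), b_succ (n + 1)]
    omega

lemma a_ne (n : ℕ) : a n ≠ 0 := by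
  cases n with
  | zero => simp [a_zero]
  | succ n => have := (mod5 n).1; omega

lemma b_ne (n : ℕ) (hn : 0 < n) : b n ≠ 0 := by
  obtain ⟨m, rfl⟩ : ∃ m, n = m + 1 := ⟨n - 1, by omega⟩
  have := (mod5 m).2; omega

lemma abs_a_le (n : ℕ) : |a n| ≤ 5 ^ n := by
  have h := sq_add n
  have : a n ^ 2 ≤ (5 ^ n) ^ 2 := by
    have h25 : (25 : ℤ) ^ n = (5 ^ n) ^ 2 := by rw [← pow_mul, mul_comm, pow_mul]; norm_num
    rw [← h25, ← h]; nlinarith [sq_nonneg (b n)]
  exact abs_le_of_sq_le_sq this (by positivity)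

lemma a_lt (n : ℕ) (hn : 0 < n) : a n < 5 ^ n := by
  have h := sq_add n
  have hb := b_ne n hn
  have h25 : (25 : ℤ) ^ n = (5 ^ n) ^ 2 := by rw [← pow_mul, mul_comm, pow_mul]; norm_num
  have hb2 : 0 < b n ^ 2 := by positivity
  have : a n ^ 2 < (5 ^ n) ^ 2 := by rw [← h25, ← h]; linarith
  exact lt_of_pow_lt_pow_left₀ 2 (by positivity) this

/-- No sign pattern of `a` is eventually periodic: a sequence `u_n = ε a (m + n T)` cannot be
positive for every `n`. -/
lemma not_all_pos (ε : ℤ) (m T : ℕ) (hT : 0 < T) (h : ∀ n, 0 < ε * a (m + n * T)) : False := by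
  -- work with ratios in ℝ
  set u : ℕ → ℝ := fun n => ((ε * a (m + n * T) : ℤ) : ℝ) with hu
  have hpos : ∀ n, 0 < u n := fun n => by simp only [hu]; exact_mod_cast h n
  have hrec : ∀ n, u (n + 2) = 2 * (a T : ℝ) * u (n + 1) - 25 ^ T * u n := by
    intro n
    have h1 := ab_add (m + n * T) T
    have h2 := ab_add (m + (n + 1) * T) T
    have e1 : m + (n + 1) * T = m + n * T + T := by ring
    have e2 : m + (n + 2) * T = m + (n + 1) * T + T := by ring
    have hs := sq_add T
    have : ε * a (m + (n + 2) * T) =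
        2 * a T * (ε * a (m + (n + 1) * T)) - 25 ^ T * (ε * a (m + n * T)) := by
      rw [e2, h2.1, e1, h1.1, h1.2, ← hs]
      ring
    simp only [hu]
    rw [this]
    push_cast
    ring
  set c : ℝ := 5 ^ T with hc
  have hc0 : 0 < c := by positivity
  have hc2 : (25 : ℝ) ^ T = c ^ 2 := by
    rw [hc, ← pow_mul, mul_comm, pow_mul]; norm_num
  set δ : ℝ := 2 * (c - a T) with hδ
  have hδ0 : 0 < δ := by
    have : ((a T : ℤ) : ℝ) < 5 ^ T := by exact_mod_cast a_lt T hT
    rw [hδ]; linarith
  set v : ℕ → ℝ := fun n => u (n + 1) / u n with hv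
  have hvpos : ∀ n, 0 < v n := fun n => div_pos (hpos _) (hpos _)
  have hstep : ∀ n, v (n + 1) ≤ v n - δ := by
    intro n
    have hn := hpos n
    have hn1 := hpos (n + 1)
    have hvn := hvpos n
    have : v (n + 1) = 2 * (a T : ℝ) - c ^ 2 / v n := by
      simp only [hv]
      rw [hrec n, hc2]
      field_simp
    rw [this, hδ]
    have key : 2 * c ≤ v n + c ^ 2 / v n := by
      have : 0 ≤ (v n - c) ^ 2 / v n := by positivity
      have e : (v n - c) ^ 2 / v n = v n - 2 * c + c ^ 2 / v n := by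
        field_simp
        ring
      linarith
    linarith
  have hlin : ∀ n : ℕ, v n ≤ v 0 - n * δ := by
    intro n
    induction n with
    | zero => simp
    | succ n ih => have := hstep n; push_cast; linarith
  obtain ⟨n, hn⟩ := exists_nat_gt (v 0 / δ)
  have h1 := hlin n
  have h2 := hvpos n
  have h3 : v 0 < n * δ := by rwa [div_lt_iff₀ hδ0] at hn
  linarith

/-! ### The optimal sequence -/

/-- The digit `s k ∈ {0,1}`, equal to `1` exactly when `Re (3+4i)^k > 0`. -/
noncomputable def s (k : ℕ) : ℝ := if 0 < a k then 1 else 0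

/-- A sequence with values in `{0,1}` whose next value is determined by the last `d` values
is eventually periodic. -/
lemma eventually_periodic (s : ℕ → ℝ) (hs : ∀ k, s k = 0 ∨ s k = 1) (d N : ℕ)
    (hdet : ∀ m n, N ≤ m → N ≤ n → (∀ i < d, s (m + i) = s (n + i)) → s (m + d) = s (n + d)) :
    ∃ m T : ℕ, 0 < T ∧ ∀ n, s (m + n * T) = s m := by
  classical
  -- pigeonhole
  let f : ℕ → (Fin d → Bool) := fun n i => decide (s (N + n + i) = 1)
  obtain ⟨x, y, hxy, hf⟩ := Finite.exists_ne_map_eq_of_infinite f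
  wlog hlt : x < y generalizing x y
  · exact this y x hxy.symm hf.symm (by omega)
  have hbase : ∀ i < d, s (N + x + i) = s (N + y + i) := by
    intro i hi
    have := congrFun hf ⟨i, hi⟩
    simp only [f, decide_eq_decide] at this
    rcases hs (N + x + i) with h1 | h1 <;> rcases hs (N + y + i) with h2 | h2 <;>
      simp_all
  have hall : ∀ k, ∀ i < d, s (N + x + k + i) = s (N + y + k + i) := by
    intro k
    induction k with
    | zero => simpa using hbase
    | succ k ih =>
      intro i hi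
      by_cases hid : i + 1 < d
      · have := ih (i + 1) hid
        have e1 : N + x + (k + 1) + i = N + x + k + (i + 1) := by ring
        have e2 : N + y + (k + 1) + i = N + y + k + (i + 1) := by ring
        rw [e1, e2]; exact this
      · have hd : i + 1 = d := by omega
        have := hdet (N + x + k) (N + y + k) (by omega) (by omega) ih
        have e1 : N + x + (k + 1) + i = N + x + k + d := by omega
        have e2 : N + y + (k + 1) + i = N + y + k + d := by omega
        rw [e1, e2]; exact this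
  have hper : ∀ k, s (N + x + k) = s (N + y + k) := by
    intro k
    by_cases hd : 0 < d
    · simpa using hall k 0 hd
    · have hd0 : d = 0 := by omega
      subst hd0
      simpa using hdet (N + x + k) (N + y + k) (by omega) (by omega) (by simp)
  refine ⟨N + x, y - x, by omega, fun n => ?_⟩
  induction n with
  | zero => simp
  | succ n ih =>
    rw [← ih]
    have := hper (n * (y - x))
    rw [this]
    congr 1
    have : (n + 1) * (y - x) = n * (y - x) + (y - x) := by ring
    omega

/-- The sequence `s k / 10^k` has no rational transform. -/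
lemma not_rational (P D : Polynomial ℝ) (hD : D ≠ 0)
    (h : (D : PowerSeries ℝ) * PowerSeries.mk (fun k => s k / 10 ^ k) = (P : PowerSeries ℝ)) :
    False := by
  classical
  set j := D.natTrailingDegree with hj
  have hDj : D.coeff j ≠ 0 := by
    rw [hj]; exact Polynomial.trailingCoeff_nonzero_iff_nonzero.mpr hD
  have hlow : ∀ i < j, D.coeff i = 0 := fun i hi =>
    Polynomial.coeff_eq_zero_of_lt_natTrailingDegree hi
  set e := D.natDegree with he
  have hje : j ≤ e := Polynomial.natTrailingDegree_le_natDegree D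
  have hhigh : ∀ i, e < i → D.coeff i = 0 := fun i hi =>
    Polynomial.coeff_eq_zero_of_natDegree_lt hi
  -- the recurrence
  have hrec : ∀ n, P.natDegree < n → e ≤ n →
      ∑ i ∈ range (e + 1), D.coeff i * (s (n - i) * 10 ^ i) = 0 := by
    intro n hn hen
    have hc := congrArg (PowerSeries.coeff n) h
    rw [PowerSeries.coeff_mul, Polynomial.coeff_coe,
      Polynomial.coeff_eq_zero_of_natDegree_lt hn,
      Finset.Nat.sum_antidiagonal_eq_sum_range_succ_mk] at hc
    simp only [Polynomial.coeff_coe, PowerSeries.coeff_mk] at hc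
    have h2 : ∑ i ∈ range (e + 1), D.coeff i * (s (n - i) / 10 ^ (n - i)) = 0 := by
      rw [← hc]
      apply Finset.sum_subset
      · intro i hi; simp only [Finset.mem_range] at hi ⊢; omega
      · intro i _ hi
        simp only [Finset.mem_range, not_lt] at hi
        rw [hhigh i (by omega), zero_mul]
    have h3 := congrArg (fun x => x * (10 : ℝ) ^ n) h2
    simp only [zero_mul, Finset.sum_mul] at h3
    rw [← h3]
    apply Finset.sum_congr rfl
    intro i hi
    simp only [Finset.mem_range] at hi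
    have : (10 : ℝ) ^ n = 10 ^ (n - i) * 10 ^ i := by rw [← pow_add]; congr 1; omega
    rw [this]
    field_simp
  -- determinism
  have hdet : ∀ m n, P.natDegree + e + 1 ≤ m → P.natDegree + e + 1 ≤ n →
      (∀ i < e - j, s (m + i) = s (n + i)) → s (m + (e - j)) = s (n + (e - j)) := by
    intro m n hm hn hi
    have r1 := hrec (m + e) (by omega) (by omega)
    have r2 := hrec (n + e) (by omega) (by omega)
    have hdiff : ∑ i ∈ range (e + 1),
        (D.coeff i * (s (m + e - i) * 10 ^ i) - D.coeff i * (s (n + e - i) * 10 ^ i)) = 0 := by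
      rw [Finset.sum_sub_distrib, r1, r2, sub_zero]
    rw [Finset.sum_eq_single j] at hdiff
    · have e1 : m + e - j = m + (e - j) := by omega
      have e2 : n + e - j = n + (e - j) := by omega
      rw [e1, e2] at hdiff
      have h10 : (10 : ℝ) ^ j ≠ 0 := by positivity
      have : D.coeff j * 10 ^ j * (s (m + (e - j)) - s (n + (e - j))) = 0 := by
        rw [← hdiff]; ring
      have h4 := (mul_eq_zero.mp this).resolve_left (mul_ne_zero hDj h10)
      linarith
    · intro i hir hij
      simp only [Finset.mem_range] at hir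
      by_cases hlt : i < j
      · rw [hlow i hlt]; ring
      · have e1 : m + e - i = m + (e - i) := by omega
        have e2 : n + e - i = n + (e - i) := by omega
        rw [e1, e2, hi (e - i) (by omega)]; ring
    · intro hjn
      simp only [Finset.mem_range, not_lt] at hjn
      omega
  have hs01 : ∀ k, s k = 0 ∨ s k = 1 := by
    intro k; unfold s; split_ifs <;> simp
  obtain ⟨m, T, hT, hper⟩ := eventually_periodic s hs01 _ _ hdet
  by_cases hm : 0 < a m
  · apply not_all_pos 1 m T hT
    intro n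
    have := hper n
    have hsm : s m = 1 := by simp [s, hm]
    rw [hsm] at this
    by_contra hcon
    have : s (m + n * T) = 0 := by
      unfold s; rw [if_neg]; intro h'; apply hcon; simpa using h'
    linarith
  · apply not_all_pos (-1) m T hT
    intro n
    have := hper n
    have hsm : s m = 0 := by simp [s, hm]
    rw [hsm] at this
    by_contra hcon
    have hne := a_ne (m + n * T)
    have : s (m + n * T) = 1 := by
      unfold s; rw [if_pos]; omega
    linarith

/-! ### The instance -/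

/-- `h k = Re((3+4i)/10)^k`. -/
noncomputable def h (k : ℕ) : ℝ := (a k : ℝ) / 10 ^ k

/-- `g k = 10^{-k}`. -/
noncomputable def g (k : ℕ) : ℝ := 1 / 10 ^ k

/-- `H = (h, 0, g)`, a `1 × 3` sequence. -/
noncomputable def H : ℕ → Matrix (Fin 1) (Fin 3) ℝ := fun k => !![h k, 0, g k]

/-- `U = 1` (unit pulse). -/
noncomputable def U : ℕ → Matrix (Fin 1) (Fin 1) ℝ := fun k => if k = 0 then !![1] else 0

/-- `V = (1, 1, 1)` (unit pulse). -/
noncomputable def V : ℕ → Matrix (Fin 1) (Fin 3) ℝ := fun k => if k = 0 then !![1, 1, 1] else 0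

lemma summable_g : Summable g := by
  have : g = fun k => (1 / 10 : ℝ) ^ k := by
    funext k; simp [g, one_div, inv_pow]
  rw [this]
  exact summable_geometric_of_lt_one (by norm_num) (by norm_num)

lemma summable_abs_h : Summable fun k => |h k| := by
  have hs : Summable fun k : ℕ => (1 / 2 : ℝ) ^ k :=
    summable_geometric_of_lt_one (by norm_num) (by norm_num)
  refine Summable.of_nonneg_of_le (fun k => abs_nonneg _) (fun k => ?_) hs
  have h1 : |(a k : ℝ)| ≤ 5 ^ k := by exact_mod_cast abs_a_le k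
  rw [h, abs_div, abs_of_pos (by positivity : (0 : ℝ) < 10 ^ k)]
  calc |(a k : ℝ)| / 10 ^ k ≤ 5 ^ k / 10 ^ k := by gcongr
    _ = (1 / 2) ^ k := by rw [← div_pow]; norm_num

lemma g_pos (k : ℕ) : 0 < g k := by unfold g; positivity

/-- the closed loop for a given `Q` -/
lemma closed_loop (Q : ℕ → Matrix (Fin 1) (Fin 1) ℝ) (k : ℕ) :
    (H - conv (conv U Q) V) k = !![h k - Q k 0 0, - Q k 0 0, g k - Q k 0 0] := by
  have h1 : conv U Q = Q := by
    funext n
    unfold conv
    rw [Finset.sum_eq_single 0]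
    · have : U 0 = 1 := by
        ext i j; fin_cases i; fin_cases j; simp [U]
      rw [this, one_mul, Nat.sub_zero]
    · intro t _ ht
      simp [U, ht]
    · simp
  have h2 : conv Q V k = Q k * V 0 := by
    unfold conv
    rw [Finset.sum_eq_single k]
    · simp
    · intro t ht1 ht
      simp only [Finset.mem_range] at ht1
      have : k - t ≠ 0 := by omega
      simp [V, this]
    · simp
  rw [h1, Pi.sub_apply, h2]
  ext i j
  fin_cases i
  fin_cases j <;> simp [H, V, Matrix.mul_apply]

lemma norm_eq (Q : ℕ → Matrix (Fin 1) (Fin 1) ℝ) (hQ : IsL1 Q) :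
    norm1 (H - conv (conv U Q) V) =
      ∑' k, (|h k - Q k 0 0| + |Q k 0 0| + |g k - Q k 0 0|) := by
  have hq : Summable fun k => |Q k 0 0| := hQ 0 0
  have s1 : Summable fun k => |h k - Q k 0 0| :=
    Summable.of_nonneg_of_le (fun k => abs_nonneg _) (fun k => abs_sub _ _)
      (summable_abs_h.add hq)
  have s3 : Summable fun k => |g k - Q k 0 0| :=
    Summable.of_nonneg_of_le (fun k => abs_nonneg _) (fun k => abs_sub _ _)
      (summable_g.abs.add hq)
  unfold norm1
  rw [ciSup_unique]
  simp only [closed_loop, Fin.sum_univ_three]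
  have e0 : ∀ k, (!![h k - Q k 0 0, - Q k 0 0, g k - Q k 0 0] : Matrix (Fin 1) (Fin 3) ℝ)
      default 0 = h k - Q k 0 0 := fun k => rfl
  have e1 : ∀ k, (!![h k - Q k 0 0, - Q k 0 0, g k - Q k 0 0] : Matrix (Fin 1) (Fin 3) ℝ)
      default 1 = - Q k 0 0 := fun k => rfl
  have e2 : ∀ k, (!![h k - Q k 0 0, - Q k 0 0, g k - Q k 0 0] : Matrix (Fin 1) (Fin 3) ℝ)
      default 2 = g k - Q k 0 0 := fun k => rfl
  simp only [e0, e1, e2, abs_neg]
  rw [(s1.add hq).tsum_add s3, s1.tsum_add hq]

/-- The optimal sequence. -/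
noncomputable def q (k : ℕ) : ℝ := s k / 10 ^ k

/-- pointwise minimality, with equality only at `q k` -/
lemma pointwise (k : ℕ) (x : ℝ) :
    |h k - q k| + |q k| + |g k - q k| ≤ |h k - x| + |x| + |g k - x| ∧
    (|h k - x| + |x| + |g k - x| ≤ |h k - q k| + |q k| + |g k - q k| → x = q k) := by
  have hg := g_pos k
  rcases lt_or_gt_of_ne (a_ne k) with hneg | hpos
  · -- `a k < 0`: `q k = 0`, `h k < 0`
    have hq : q k = 0 := by simp [q, s, not_lt.mpr hneg.le]
    have hh : h k < 0 := by
      unfold h; exact div_neg_of_neg_of_pos (by exact_mod_cast hneg) (by positivity)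
    rw [hq]
    rw [sub_zero, sub_zero, abs_zero, abs_of_neg hh, abs_of_pos hg]
    constructor
    · rcases abs_cases (h k - x) with ⟨h1, h2⟩ | ⟨h1, h2⟩ <;>
        rcases abs_cases x with ⟨h3, h4⟩ | ⟨h3, h4⟩ <;>
        rcases abs_cases (g k - x) with ⟨h5, h6⟩ | ⟨h5, h6⟩ <;> linarith
    · intro hle
      rcases abs_cases (h k - x) with ⟨h1, h2⟩ | ⟨h1, h2⟩ <;>
        rcases abs_cases x with ⟨h3, h4⟩ | ⟨h3, h4⟩ <;>
        rcases abs_cases (g k - x) with ⟨h5, h6⟩ | ⟨h5, h6⟩ <;> linarith
  · -- `a k > 0`: `q k = g k ≤ h k`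
    have hq : q k = g k := by simp [q, s, hpos, g]
    have hh : g k ≤ h k := by
      have h1 : (1 : ℝ) ≤ a k := by exact_mod_cast hpos
      unfold h g; gcongr
    rw [hq, sub_self, abs_zero, abs_of_nonneg (by linarith : 0 ≤ h k - g k), abs_of_pos hg]
    constructor
    · rcases abs_cases (h k - x) with ⟨h1, h2⟩ | ⟨h1, h2⟩ <;>
        rcases abs_cases x with ⟨h3, h4⟩ | ⟨h3, h4⟩ <;>
        rcases abs_cases (g k - x) with ⟨h5, h6⟩ | ⟨h5, h6⟩ <;> linarith
    · intro hle
      rcases abs_cases (h k - x) with ⟨h1, h2⟩ | ⟨h1, h2⟩ <;>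
        rcases abs_cases x with ⟨h3, h4⟩ | ⟨h3, h4⟩ <;>
        rcases abs_cases (g k - x) with ⟨h5, h6⟩ | ⟨h5, h6⟩ <;> linarith

lemma summable_abs_q : Summable fun k => |q k| := by
  refine Summable.of_nonneg_of_le (fun k => abs_nonneg _) (fun k => ?_) summable_g
  unfold q g s
  split_ifs
  · rw [abs_of_pos (by positivity)]
  · simp

/-- The optimal `Q`. -/
noncomputable def Qopt : ℕ → Matrix (Fin 1) (Fin 1) ℝ := fun k => !![q k]

lemma Qopt_l1 : IsL1 Qopt := by
  intro i j
  fin_cases i; fin_cases j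
  simpa [Qopt] using summable_abs_q

lemma summable_cost (Q : ℕ → Matrix (Fin 1) (Fin 1) ℝ) (hQ : IsL1 Q) :
    Summable fun k => (|h k - Q k 0 0| + |Q k 0 0| + |g k - Q k 0 0|) := by
  have hq : Summable fun k => |Q k 0 0| := hQ 0 0
  have s1 : Summable fun k => |h k - Q k 0 0| :=
    Summable.of_nonneg_of_le (fun k => abs_nonneg _) (fun k => abs_sub _ _)
      (summable_abs_h.add hq)
  have s3 : Summable fun k => |g k - Q k 0 0| :=
    Summable.of_nonneg_of_le (fun k => abs_nonneg _) (fun k => abs_sub _ _)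
      (summable_g.abs.add hq)
  exact (s1.add hq).add s3

lemma Qopt_optimal : IsOptimal H U V Qopt := by
  refine ⟨Qopt_l1, fun Q' hQ' => ?_⟩
  rw [norm_eq _ Qopt_l1, norm_eq _ hQ']
  refine Summable.tsum_le_tsum (fun k => ?_) (summable_cost _ Qopt_l1) (summable_cost _ hQ')
  exact (pointwise k (Q' k 0 0)).1

lemma optimal_unique (Q : ℕ → Matrix (Fin 1) (Fin 1) ℝ) (hQ : IsOptimal H U V Q) (k : ℕ) :
    Q k 0 0 = q k := by
  by_contra hne
  have hle := hQ.2 Qopt Qopt_l1
  rw [norm_eq _ Qopt_l1, norm_eq _ hQ.1] at hle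
  have hlt : ∑' k, (|h k - Qopt k 0 0| + |Qopt k 0 0| + |g k - Qopt k 0 0|) <
      ∑' k, (|h k - Q k 0 0| + |Q k 0 0| + |g k - Q k 0 0|) := by
    refine Summable.tsum_lt_tsum (i := k) (fun k => (pointwise k (Q k 0 0)).1) ?_
      (summable_cost _ Qopt_l1) (summable_cost _ hQ.1)
    by_contra hcon
    exact hne ((pointwise k (Q k 0 0)).2 (not_lt.mp hcon))
  linarith

/-! ### Transforms -/

lemma transform_of (X : ℕ → ℝ) (P D : Polynomial ℝ) (hD : D ≠ 0)
    (hX : (D : PowerSeries ℝ) * PowerSeries.mk X = (P : PowerSeries ℝ)) :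
    (((algebraMap (Polynomial ℝ) (RatFunc ℝ) P / algebraMap (Polynomial ℝ) (RatFunc ℝ) D).denom :
        Polynomial ℝ) : PowerSeries ℝ) * PowerSeries.mk X =
      (((algebraMap (Polynomial ℝ) (RatFunc ℝ) P / algebraMap (Polynomial ℝ) (RatFunc ℝ) D).num :
        Polynomial ℝ) : PowerSeries ℝ) := by
  set r := algebraMap (Polynomial ℝ) (RatFunc ℝ) P / algebraMap (Polynomial ℝ) (RatFunc ℝ) D
    with hr
  have h1 : r.num * D = P * r.denom := by
    rw [RatFunc.num_mul_eq_mul_denom_iff hD]
  have hD' : (D : PowerSeries ℝ) ≠ 0 := by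
    intro h; exact hD (Polynomial.coe_injective ℝ (by simpa using h))
  apply mul_left_cancel₀ hD'
  calc (D : PowerSeries ℝ) * ((r.denom : PowerSeries ℝ) * PowerSeries.mk X)
      = (r.denom : PowerSeries ℝ) * ((D : PowerSeries ℝ) * PowerSeries.mk X) := by ring
    _ = (r.denom : PowerSeries ℝ) * (P : PowerSeries ℝ) := by rw [hX]
    _ = ((P * r.denom : Polynomial ℝ) : PowerSeries ℝ) := by push_cast; ring
    _ = ((r.num * D : Polynomial ℝ) : PowerSeries ℝ) := by rw [h1]
    _ = (D : PowerSeries ℝ) * (r.num : PowerSeries ℝ) := by push_cast; ring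

lemma a_rec (n : ℕ) : a (n + 2) = 6 * a (n + 1) - 25 * a n := by
  rw [a_succ (n + 1), b_succ n, a_succ n]; ring

lemma trans_h : (((1 - Polynomial.C (3 / 5) * Polynomial.X +
      Polynomial.C (1 / 4) * Polynomial.X * Polynomial.X : Polynomial ℝ)) : PowerSeries ℝ) *
      PowerSeries.mk h =
    ((1 - Polynomial.C (3 / 10) * Polynomial.X : Polynomial ℝ) : PowerSeries ℝ) := by
  ext n
  simp only [Polynomial.coe_add, Polynomial.coe_sub, Polynomial.coe_one, Polynomial.coe_mul,
    Polynomial.coe_C, Polynomial.coe_X, sub_mul, add_mul, one_mul, mul_assoc, map_add, map_sub,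
    PowerSeries.coeff_C_mul, PowerSeries.coeff_mk]
  match n with
  | 0 => simp [PowerSeries.coeff_zero_X_mul, h, a_zero]
  | 1 =>
    rw [PowerSeries.coeff_succ_X_mul, PowerSeries.coeff_succ_X_mul, PowerSeries.coeff_zero_X_mul,
      PowerSeries.coeff_mk, PowerSeries.coeff_one]
    simp [PowerSeries.coeff_X, h, a_succ, a_zero, b_zero]
    norm_num
  | n + 2 =>
    rw [PowerSeries.coeff_succ_X_mul, PowerSeries.coeff_succ_X_mul, PowerSeries.coeff_succ_X_mul,
      PowerSeries.coeff_mk, PowerSeries.coeff_mk, PowerSeries.coeff_one, PowerSeries.coeff_X]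
    simp only [h, a_rec]
    push_cast
    rw [pow_succ, pow_succ]
    field_simp
    ring

lemma trans_g : (((1 - Polynomial.C (1 / 10) * Polynomial.X : Polynomial ℝ)) : PowerSeries ℝ) *
      PowerSeries.mk g = ((1 : Polynomial ℝ) : PowerSeries ℝ) := by
  ext n
  simp only [Polynomial.coe_sub, Polynomial.coe_one, Polynomial.coe_mul,
    Polynomial.coe_C, Polynomial.coe_X, sub_mul, one_mul, mul_assoc, map_sub,
    PowerSeries.coeff_C_mul, PowerSeries.coeff_mk]
  match n with
  | 0 => simp [PowerSeries.coeff_zero_X_mul, g]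
  | n + 1 =>
    rw [PowerSeries.coeff_succ_X_mul, PowerSeries.coeff_mk, PowerSeries.coeff_one]
    simp only [g]
    rw [if_neg (by omega), pow_succ]
    field_simp
    ring

lemma trans_zero : ((1 : Polynomial ℝ) : PowerSeries ℝ) *
      PowerSeries.mk (fun _ => (0 : ℝ)) = ((0 : Polynomial ℝ) : PowerSeries ℝ) := by
  ext n; simp

lemma trans_one : ((1 : Polynomial ℝ) : PowerSeries ℝ) *
      PowerSeries.mk (fun k : ℕ => (if k = 0 then 1 else 0 : ℝ)) =
      ((1 : Polynomial ℝ) : PowerSeries ℝ) := by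
  ext n
  simp [PowerSeries.coeff_one]

lemma ne_h : (1 - Polynomial.C (3 / 5) * Polynomial.X +
      Polynomial.C (1 / 4) * Polynomial.X * Polynomial.X : Polynomial ℝ) ≠ 0 := by
  intro h0
  have := congrArg (Polynomial.eval 0) h0
  simp at this

lemma ne_g : (1 - Polynomial.C (1 / 10) * Polynomial.X : Polynomial ℝ) ≠ 0 := by
  intro h0
  have := congrArg (Polynomial.eval 0) h0
  simp at this

/-- The quotient `P / D` as a rational function. -/
noncomputable def rf (P D : Polynomial ℝ) : RatFunc ℝ :=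
  algebraMap (Polynomial ℝ) (RatFunc ℝ) P / algebraMap (Polynomial ℝ) (RatFunc ℝ) D

noncomputable def Hhat : Matrix (Fin 1) (Fin 3) (RatFunc ℝ) :=
  !![rf (1 - Polynomial.C (3 / 10) * Polynomial.X) (1 - Polynomial.C (3 / 5) * Polynomial.X +
      Polynomial.C (1 / 4) * Polynomial.X * Polynomial.X),
    rf 0 1, rf 1 (1 - Polynomial.C (1 / 10) * Polynomial.X)]

noncomputable def Uhat : Matrix (Fin 1) (Fin 1) (RatFunc ℝ) := !![rf 1 1]

noncomputable def Vhat : Matrix (Fin 1) (Fin 3) (RatFunc ℝ) := !![rf 1 1, rf 1 1, rf 1 1]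

lemma H_trans : HasTransform H Hhat := by
  intro i j
  fin_cases i
  fin_cases j
  · exact transform_of h _ _ ne_h trans_h
  · exact transform_of (fun _ => (0 : ℝ)) _ _ one_ne_zero trans_zero
  · exact transform_of g _ _ ne_g trans_g

lemma U_trans : HasTransform U Uhat := by
  intro i j
  fin_cases i
  fin_cases j
  have e : (fun k => U k 0 0) = fun k : ℕ => (if k = 0 then 1 else 0 : ℝ) := by
    funext k; unfold U; split_ifs <;> rfl
  have := transform_of _ _ _ one_ne_zero trans_one
  rw [← e] at this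
  exact this

lemma V_trans : HasTransform V Vhat := by
  intro i j
  fin_cases i
  have key := transform_of _ _ _ one_ne_zero trans_one
  fin_cases j
  · have e : (fun k => V k 0 0) = fun k : ℕ => (if k = 0 then 1 else 0 : ℝ) := by
      funext k; unfold V; split_ifs <;> rfl
    rw [← e] at key; exact key
  · have e : (fun k => V k 0 1) = fun k : ℕ => (if k = 0 then 1 else 0 : ℝ) := by
      funext k; unfold V; split_ifs <;> rfl
    rw [← e] at key; exact key
  · have e : (fun k => V k 0 2) = fun k : ℕ => (if k = 0 then 1 else 0 : ℝ) := by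
      funext k; unfold V; split_ifs <;> rfl
    rw [← e] at key; exact key

lemma H_l1 : IsL1 H := by
  intro i j
  fin_cases i
  fin_cases j
  · exact summable_abs_h
  · simpa [H] using (summable_zero : Summable fun _ : ℕ => (0 : ℝ))
  · exact summable_g.abs

lemma pulse_summable : Summable fun k : ℕ => |(if k = 0 then 1 else 0 : ℝ)| := by
  apply summable_of_ne_finset_zero (s := {0})
  intro b hb
  have : b ≠ 0 := by simpa using hb
  simp [this]

lemma U_l1 : IsL1 U := by
  intro i j
  fin_cases i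
  fin_cases j
  have e : (fun k => |U k 0 0|) = fun k : ℕ => |(if k = 0 then 1 else 0 : ℝ)| := by
    funext k; unfold U; split_ifs <;> rfl
  show Summable (fun k => |U k 0 0|)
  rw [e]; exact pulse_summable

lemma V_l1 : IsL1 V := by
  intro i j
  fin_cases i
  have key := pulse_summable
  fin_cases j
  · have e : (fun k => |V k 0 0|) = fun k : ℕ => |(if k = 0 then 1 else 0 : ℝ)| := by
      funext k; unfold V; split_ifs <;> rfl
    rw [← e] at key; exact key
  · have e : (fun k => |V k 0 1|) = fun k : ℕ => |(if k = 0 then 1 else 0 : ℝ)| := by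
      funext k; unfold V; split_ifs <;> rfl
    rw [← e] at key; exact key
  · have e : (fun k => |V k 0 2|) = fun k : ℕ => |(if k = 0 then 1 else 0 : ℝ)| := by
      funext k; unfold V; split_ifs <;> rfl
    rw [← e] at key; exact key

/-- **There are rational data `H, U, V` forming a multi-block `ell_1` optimal control instance
for which the infimum of `‖H - U Q V‖_1` over `Q ∈ ell_1` is attained, but no optimal `Q` is
rational.** -/
theorem result :
    ∃ (nz nw nu ny : ℕ) (_ : 0 < nz) (_ : 0 < nw) (_ : 0 < nu) (_ : 0 < ny)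
      (H : ℕ → Matrix (Fin nz) (Fin nw) ℝ) (U : ℕ → Matrix (Fin nz) (Fin nu) ℝ)
      (V : ℕ → Matrix (Fin ny) (Fin nw) ℝ)
      (Hhat : Matrix (Fin nz) (Fin nw) (RatFunc ℝ)) (Uhat : Matrix (Fin nz) (Fin nu) (RatFunc ℝ))
      (Vhat : Matrix (Fin ny) (Fin nw) (RatFunc ℝ)),
      IsL1 H ∧ IsL1 U ∧ IsL1 V ∧
      HasTransform H Hhat ∧ HasTransform U Uhat ∧ HasTransform V Vhat ∧
      ¬ (Uhat.rank = nz ∧ Vhat.rank = nw) ∧
      (∃ Q, IsOptimal H U V Q) ∧
      ∀ Q, IsOptimal H U V Q → ¬ IsRational Q := by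
  refine ⟨1, 3, 1, 1, one_pos, by norm_num, one_pos, one_pos, H, U, V, Hhat, Uhat, Vhat,
    H_l1, U_l1, V_l1, H_trans, U_trans, V_trans, ?_, ⟨Qopt, Qopt_optimal⟩, ?_⟩
  · rintro ⟨-, h3⟩
    have := Matrix.rank_le_height Vhat
    omega
  · rintro Q hQ ⟨R, hR⟩
    have h0 := hR 0 0
    have e : (fun k => Q k 0 0) = fun k => s k / 10 ^ k := by
      funext k; exact optimal_unique Q hQ k
    rw [e] at h0
    exact not_rational _ _ (RatFunc.denom_ne_zero _) h0

end Pool.Agent.Results.MP_c74d57_an.IrrationalOptimum
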